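import Mathlib
import Pool.Agent.R175.GridPath
import Pool.Agent.R175.GridTile
import Pool.Agent.R175.SquareSpiral
import Pool.Agent.R175.HalfSnake

/-!
# The square tiling admits spiral markings with any number of arms

In every tile exactly one side is marked. For `n = 1` the marked sides form the square spiral; for
`n = k + 2` they form a snake filling the half-plane `x ≥ k`, a snake filling the half-plane `x ≤ -1` and the
`k` vertical lines between them.
-/

set_option autoImplicit false

namespace Pool.Agent.Results.MP_ca213f_co.AllArms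

open Set Pool.Agent.R175 Pool.Agent.R175.GridPath Pool.Agent.R175.GridTile Pool.Agent.R175.HalfSnake

/-- A marking of the unit square: a finite set of arcs in it. -/
def IsMarking (M : Set (Set ℂ)) : Prop := M.Finite ∧ ∀ m ∈ M, IsArc m ∧ m ⊆ unitSquare

/-- A choice of an isometry of the plane that carries the prototile (the unit square) to the tile `cell p`,
for every tile of the square tiling `(4⁴)`. -/
def IsPlacement (σ : ℤ × ℤ → (ℂ ≃ᵢ ℂ)) : Prop := ∀ p, σ p '' unitSquare = cell p

/-- The marked square tiling is an `n`-armed spiral: the union of all the marked arcs is the union of exactly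
`n` pairwise disjoint unbounded simple curves. We require in addition that the curves are closed subsets of
the plane; then they are the connected components of the union, and their number is determined by it. -/
def IsArmed (n : ℕ) (M : Set (Set ℂ)) (σ : ℤ × ℤ → (ℂ ≃ᵢ ℂ)) : Prop :=
  ∃ C : Fin n → Set ℂ, (∀ i, IsUnboundedSimpleCurve (C i) ∧ IsClosed (C i)) ∧
    (∀ i j, i ≠ j → Disjoint (C i) (C j)) ∧ ⋃ p, ⋃ m ∈ M, σ p '' m = ⋃ i, C i

theorem marking_bottom : IsMarking {bottom} := by
  refine ⟨finite_singleton _, ?_⟩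
  rintro m rfl
  exact ⟨bottom_arc, bottom_sub⟩

theorem curve_closed {A : Set (ℤ × ℤ)} {S : ℤ × ℤ → ℤ × ℤ} {o : ℤ × ℤ} (h : RaySys A S o) :
    IsUnboundedSimpleCurve (⋃ p ∈ A, segment ℝ (pt p) (pt (S p))) ∧
      IsClosed (⋃ p ∈ A, segment ℝ (pt p) (pt (S p))) := by
  refine ⟨curve_of_ray h, ?_⟩
  obtain ⟨f, hf, hr, -⟩ := h.curve
  rw [← hr]
  exact hf.isClosed_range

theorem one_arm : IsArmed 1 {bottom} (fun p => place p (SquareSpiral.sd p)) := by
  refine ⟨fun _ => ⋃ p ∈ (univ : Set (ℤ × ℤ)), segment ℝ (pt p) (pt (SquareSpiral.S p)),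
    fun _ => curve_closed SquareSpiral.spiral, ?_, ?_⟩
  · intro i j hij
    exact absurd (Subsingleton.elim i j) hij
  · rw [iUnion_const, ← SquareSpiral.union_eq]
    exact union_marks _

/-! ### Conjugate paths -/

/-- The half turn on vertices. -/
def rv (p : ℤ × ℤ) : ℤ × ℤ := (-1 - p.1, -p.2)

/-- The half turn on cells. -/
def rc (p : ℤ × ℤ) : ℤ × ℤ := (-2 - p.1, -1 - p.2)

/-- The translation. -/
def sh (k : ℤ) (p : ℤ × ℤ) : ℤ × ℤ := (p.1 + k, p.2)

theorem conj {A : Set (ℤ × ℤ)} {S : ℤ × ℤ → ℤ × ℤ} {o : ℤ × ℤ} (h : RaySys A S o) (f g : ℤ × ℤ → ℤ × ℤ)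
    (hfg : ∀ p, f (g p) = p) (hgf : ∀ p, g (f p) = p) (hadj : ∀ p q, Adj p q → Adj (f p) (f q)) :
    RaySys {p | g p ∈ A} (fun p => f (S (g p))) (f o) where
  o_mem := by
    change g (f o) ∈ A
    rw [hgf]; exact h.o_mem
  maps := by
    intro p hp
    change g (f (S (g p))) ∈ A
    rw [hgf]; exact h.maps _ hp
  inj := by
    intro p hp q hq heq
    have h1 := congrArg g heq
    rw [hgf, hgf] at h1
    have h2 := h.inj _ hp _ hq h1
    rw [← hfg p, h2, hfg]
  no := by
    intro p hp heq
    have h1 := congrArg g heq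
    rw [hgf, hgf] at h1
    exact h.no _ hp h1
  adj := by
    intro p hp
    have := hadj _ _ (h.adj _ hp)
    rw [hfg] at this
    exact this
  reach := by
    intro p hp
    obtain ⟨n, hn⟩ := h.reach _ hp
    refine ⟨n, ?_⟩
    have key : ∀ m : ℕ, (fun p => f (S (g p)))^[m] (f o) = f (S^[m] o) := by
      intro m
      induction m with
      | zero => rfl
      | succ m ih => rw [Function.iterate_succ_apply', Function.iterate_succ_apply', ih, hgf]
    rw [key, hn, hfg]

theorem rv_rv (p : ℤ × ℤ) : rv (rv p) = p := by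
  apply Prod.ext <;> simp [rv]

theorem rc_rc (p : ℤ × ℤ) : rc (rc p) = p := by
  apply Prod.ext <;> simp [rc]

theorem sh_sh (k : ℤ) (p : ℤ × ℤ) : sh k (sh (-k) p) = p := by
  apply Prod.ext <;> simp [sh]

theorem sh_sh' (k : ℤ) (p : ℤ × ℤ) : sh (-k) (sh k p) = p := by
  apply Prod.ext <;> simp [sh]

/-- The successor on the left arm. -/
def SL (p : ℤ × ℤ) : ℤ × ℤ := rv (Z (rv p))

/-- The successor on the right arm. -/
def SR (k : ℤ) (p : ℤ × ℤ) : ℤ × ℤ := sh k (Z (sh (-k) p))

theorem left_ray : RaySys {p | rv p ∈ H} SL (rv (0, 0)) :=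
  conj snake rv rv rv_rv rv_rv (by
    rintro ⟨a, b⟩ ⟨c, d⟩ h
    simp only [Adj, rv] at h ⊢
    omega)

theorem right_ray (k : ℤ) : RaySys {p | sh (-k) p ∈ H} (SR k) (sh k (0, 0)) :=
  conj snake (sh k) (sh (-k)) (sh_sh k) (sh_sh' k) (by
    rintro ⟨a, b⟩ ⟨c, d⟩ h
    simp only [Adj, sh] at h ⊢
    omega)

/-- The left arm. -/
def leftArm : Set ℂ := ⋃ p ∈ {p | rv p ∈ H}, segment ℝ (pt p) (pt (SL p))

/-- The right arm. -/
def rightArm (k : ℤ) : Set ℂ := ⋃ p ∈ {p | sh (-k) p ∈ H}, segment ℝ (pt p) (pt (SR k p))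

/-- The vertical line. -/
def line (j : ℤ) : Set ℂ := {z | z.re = j}

theorem line_eq (j : ℤ) : line j = ⋃ y : ℤ, segment ℝ (pt (j, y)) (pt (j, y + 1)) := by
  ext z
  rw [mem_iUnion]
  constructor
  · intro hz
    change z.re = j at hz
    refine ⟨⌊z.im⌋, ?_⟩
    rw [segment_eq_image']
    refine ⟨z.im - ⌊z.im⌋, ⟨by linarith [Int.floor_le z.im], by linarith [Int.lt_floor_add_one z.im]⟩, ?_⟩
    apply Complex.ext <;> simp [pt, hz]
  · rintro ⟨y, hy⟩
    rw [segment_eq_image'] at hy
    obtain ⟨t, -, rfl⟩ := hy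
    change (pt (j, y) + t • (pt (j, y + 1) - pt (j, y))).re = j
    simp [pt]

theorem line_curve (j : ℤ) : IsUnboundedSimpleCurve (line j) := by
  constructor
  · intro h
    obtain ⟨R, hR⟩ := h.exists_norm_le
    have h1 := hR ⟨j, |R| + 1⟩ rfl
    have h2 := (Complex.abs_im_le_norm _).trans h1
    change |(|R| + 1)| ≤ R at h2
    have h3 := le_abs_self R
    rw [abs_of_nonneg (by positivity)] at h2
    linarith
  · left
    refine ⟨fun t => ⟨j, t⟩, ?_, ?_⟩
    · apply Isometry.isEmbedding
      apply Isometry.of_dist_eq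
      intro x y
      rw [Complex.dist_eq_re_im]
      simp [Real.sqrt_sq_eq_abs, Real.dist_eq]
    · ext z
      constructor
      · rintro ⟨t, rfl⟩
        rfl
      · intro hz
        exact ⟨z.im, Complex.ext (Eq.symm hz) rfl⟩

theorem seg_re_ge {p q : ℤ × ℤ} {c : ℝ} (hp : c ≤ p.1) (hq : c ≤ q.1) {z : ℂ}
    (hz : z ∈ segment ℝ (pt p) (pt q)) : c ≤ z.re := by
  rw [segment_eq_image'] at hz
  obtain ⟨t, ⟨h0, h1⟩, rfl⟩ := hz
  have : (pt p + t • (pt q - pt p)).re = p.1 + t * (q.1 - p.1) := by simp [pt]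
  change c ≤ (pt p + t • (pt q - pt p)).re
  rw [this]
  nlinarith

theorem seg_re_le {p q : ℤ × ℤ} {c : ℝ} (hp : (p.1 : ℝ) ≤ c) (hq : (q.1 : ℝ) ≤ c) {z : ℂ}
    (hz : z ∈ segment ℝ (pt p) (pt q)) : z.re ≤ c := by
  rw [segment_eq_image'] at hz
  obtain ⟨t, ⟨h0, h1⟩, rfl⟩ := hz
  have : (pt p + t • (pt q - pt p)).re = p.1 + t * (q.1 - p.1) := by simp [pt]
  change (pt p + t • (pt q - pt p)).re ≤ c
  rw [this]
  nlinarith

theorem left_re {z : ℂ} (hz : z ∈ leftArm) : z.re ≤ -1 := by
  unfold leftArm at hz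
  simp only [mem_iUnion] at hz
  obtain ⟨p, hp, hz⟩ := hz
  have h1 := left_ray.maps p hp
  change 0 ≤ -1 - p.1 at hp
  change 0 ≤ -1 - (SL p).1 at h1
  apply seg_re_le _ _ hz
  · have : p.1 ≤ -1 := by omega
    exact_mod_cast this
  · have : (SL p).1 ≤ -1 := by omega
    exact_mod_cast this

theorem right_re {k : ℤ} {z : ℂ} (hz : z ∈ rightArm k) : (k : ℝ) ≤ z.re := by
  unfold rightArm at hz
  simp only [mem_iUnion] at hz
  obtain ⟨p, hp, hz⟩ := hz
  have h1 := (right_ray k).maps p hp
  change 0 ≤ p.1 + -k at hp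
  change 0 ≤ (SR k p).1 + -k at h1
  apply seg_re_ge _ _ hz
  · have : k ≤ p.1 := by omega
    exact_mod_cast this
  · have : k ≤ (SR k p).1 := by omega
    exact_mod_cast this

/-- The opposite side. -/
def opp : Sd → Sd
  | Sd.B => Sd.T
  | Sd.R => Sd.L
  | Sd.T => Sd.B
  | Sd.L => Sd.R

/-- The marked side of a tile. -/
def sdk (k : ℤ) (p : ℤ × ℤ) : Sd :=
  if k ≤ p.1 then sdR (sh (-k) p)
  else if p.1 ≤ -2 then opp (sdR (rc p))
  else if p.2 % 2 = 0 then Sd.R else Sd.L

theorem e1_sh (k : ℤ) (p : ℤ × ℤ) (s : Sd) : e1 (sh k p) s = sh k (e1 p s) := by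
  cases s <;> apply Prod.ext <;> simp [e1, sh] <;> ring

theorem e2_sh (k : ℤ) (p : ℤ × ℤ) (s : Sd) : e2 (sh k p) s = sh k (e2 p s) := by
  cases s <;> apply Prod.ext <;> simp [e2, sh] <;> ring

theorem e1_rc (p : ℤ × ℤ) (s : Sd) : e1 (rc p) (opp s) = rv (e1 p s) := by
  cases s <;> apply Prod.ext <;> simp [e1, rc, rv, opp] <;> ring

theorem e2_rc (p : ℤ × ℤ) (s : Sd) : e2 (rc p) (opp s) = rv (e2 p s) := by
  cases s <;> apply Prod.ext <;> simp [e2, rc, rv, opp] <;> ring

/-- The edge of the lattice with ends `a`, `b` is marked. -/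
def Mk (k : ℤ) (a b : ℤ × ℤ) : Prop :=
  ∃ p, (e1 p (sdk k p) = a ∧ e2 p (sdk k p) = b) ∨ (e1 p (sdk k p) = b ∧ e2 p (sdk k p) = a)

theorem mk_sub {k : ℤ} {a b : ℤ × ℤ} (h : Mk k a b) :
    segment ℝ (pt a) (pt b) ⊆ ⋃ p, segment ℝ (pt (e1 p (sdk k p))) (pt (e2 p (sdk k p))) := by
  obtain ⟨p, ⟨rfl, rfl⟩ | ⟨rfl, rfl⟩⟩ := h
  · exact subset_iUnion_of_subset p subset_rfl
  · rw [segment_symm]
    exact subset_iUnion_of_subset p subset_rfl

/-- The connecting edges. -/
theorem Z_axis {Y : ℤ} (hY : Y % 2 = 0) : Z (0, Y) = (0, Y + 1) ∨ Z (0, Y + 1) = (0, Y) := by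
  by_cases h : 0 ≤ Y
  · left; exact Zb rfl h hY
  · right
    rw [Zh rfl (by omega) (by omega), add_sub_cancel_right]

theorem mk_right {k : ℤ} (hk : 0 ≤ k) {p : ℤ × ℤ} (hp : sh (-k) p ∈ H) : Mk k p (SR k p) := by
  rcases edge_sdR (p := sh (-k) p) hp with ⟨q, hq, h⟩ | ⟨Y, hY, h⟩
  · have hs : sdk k (sh k q) = sdR q := by
      unfold sdk
      rw [if_pos (by change k ≤ q.1 + k; omega), sh_sh']
    refine ⟨sh k q, ?_⟩
    rw [hs, e1_sh, e2_sh]
    rcases h with ⟨h1, h2⟩ | ⟨h1, h2⟩
    · left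
      rw [h1, h2, sh_sh]
      exact ⟨rfl, rfl⟩
    · right
      rw [h1, h2, sh_sh]
      exact ⟨rfl, rfl⟩
  · have hs : sdk k (k - 1, Y) = Sd.R := by
      unfold sdk
      rw [if_neg (by dsimp only; omega), if_neg (by dsimp only; omega), if_pos hY]
    refine ⟨(k - 1, Y), ?_⟩
    rw [hs]
    rcases h with ⟨h1, h2⟩ | ⟨h1, h2⟩
    · left
      have e : p = (k, Y) := by
        rw [← sh_sh k p, h1]
        apply Prod.ext <;> simp [sh]
      subst e
      constructor
      · apply Prod.ext <;> simp [e1]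
      · unfold SR
        rw [h2]
        apply Prod.ext <;> simp [e2, sh]
    · right
      have e : p = (k, Y + 1) := by
        rw [← sh_sh k p, h1]
        apply Prod.ext <;> simp [sh]
      subst e
      constructor
      · unfold SR
        rw [h2]
        apply Prod.ext <;> simp [e1, sh]
      · apply Prod.ext <;> simp [e2]

theorem mk_left {k : ℤ} (hk : 0 ≤ k) {p : ℤ × ℤ} (hp : rv p ∈ H) : Mk k p (SL p) := by
  rcases edge_sdR (p := rv p) hp with ⟨q, hq, h⟩ | ⟨Y, hY, h⟩
  · have hs : sdk k (rc q) = opp (sdR q) := by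
      unfold sdk
      rw [if_neg (by change ¬ (k ≤ -2 - q.1); omega), if_pos (by change -2 - q.1 ≤ -2; omega), rc_rc]
    refine ⟨rc q, ?_⟩
    rw [hs, e1_rc, e2_rc]
    rcases h with ⟨h1, h2⟩ | ⟨h1, h2⟩
    · left
      rw [h1, h2, rv_rv]
      exact ⟨rfl, rfl⟩
    · right
      rw [h1, h2, rv_rv]
      exact ⟨rfl, rfl⟩
  · have hs : sdk k (-1, -Y - 1) = Sd.L := by
      unfold sdk
      rw [if_neg (by dsimp only; omega), if_neg (by dsimp only; omega), if_neg (by dsimp only; omega)]
    refine ⟨(-1, -Y - 1), ?_⟩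
    rw [hs]
    rcases h with ⟨h1, h2⟩ | ⟨h1, h2⟩
    · left
      have e : p = (-1, -Y) := by
        rw [← rv_rv p, h1]
        apply Prod.ext <;> simp [rv]
      subst e
      constructor
      · apply Prod.ext <;> simp [e1]
      · unfold SL
        rw [h2]
        apply Prod.ext <;> simp [e2, rv]
        ring
    · right
      have e : p = (-1, -Y - 1) := by
        rw [← rv_rv p, h1]
        apply Prod.ext <;> simp [rv]
        ring
      subst e
      constructor
      · unfold SL
        rw [h2]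
        apply Prod.ext <;> simp [e1, rv]
      · apply Prod.ext <;> simp [e2]

theorem mk_line {k : ℤ} {j : ℤ} (hj0 : 0 ≤ j) (hjk : j < k) (y : ℤ) : Mk k (j, y) (j, y + 1) := by
  rcases Int.emod_two_eq_zero_or_one y with h | h
  · refine ⟨(j - 1, y), Or.inl ?_⟩
    have hs : sdk k (j - 1, y) = Sd.R := by
      unfold sdk
      rw [if_neg (by dsimp only; omega), if_neg (by dsimp only; omega), if_pos h]
    rw [hs]
    simp [e1, e2]
  · refine ⟨(j, y), Or.inr ?_⟩
    have hs : sdk k (j, y) = Sd.L := by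
      unfold sdk
      rw [if_neg (by dsimp only; omega), if_neg (by dsimp only; omega), if_neg (by dsimp only; omega)]
    rw [hs]
    simp [e1, e2]

/-- A marked side lies in one of the arms. -/
theorem side_sub {k : ℤ} (p : ℤ × ℤ) : segment ℝ (pt (e1 p (sdk k p))) (pt (e2 p (sdk k p))) ⊆ leftArm ∨
    segment ℝ (pt (e1 p (sdk k p))) (pt (e2 p (sdk k p))) ⊆ rightArm k ∨
    ∃ j : ℤ, 0 ≤ j ∧ j < k ∧ segment ℝ (pt (e1 p (sdk k p))) (pt (e2 p (sdk k p))) ⊆ line j := by
  have hR : ∀ a b : ℤ × ℤ, sh (-k) a ∈ H → SR k a = b → segment ℝ (pt a) (pt b) ⊆ rightArm k := by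
    rintro a b ha rfl
    exact subset_biUnion_of_mem (u := fun p => segment ℝ (pt p) (pt (SR k p))) ha
  have hL : ∀ a b : ℤ × ℤ, rv a ∈ H → SL a = b → segment ℝ (pt a) (pt b) ⊆ leftArm := by
    rintro a b ha rfl
    exact subset_biUnion_of_mem (u := fun p => segment ℝ (pt p) (pt (SL p))) ha
  have hV : ∀ j y : ℤ, segment ℝ (pt (j, y)) (pt (j, y + 1)) ⊆ line j := by
    intro j y
    rw [line_eq]
    exact subset_iUnion_of_subset y subset_rfl
  by_cases h1 : k ≤ p.1
  · right; left
    have hs : sdk k p = sdR (sh (-k) p) := by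
      unfold sdk; rw [if_pos h1]
    have hp : 0 ≤ (sh (-k) p).1 := by change 0 ≤ p.1 + -k; omega
    have f1 : e1 p (sdk k p) = sh k (e1 (sh (-k) p) (sdR (sh (-k) p))) := by
      rw [← e1_sh, sh_sh, hs]
    have f2 : e2 p (sdk k p) = sh k (e2 (sh (-k) p) (sdR (sh (-k) p))) := by
      rw [← e2_sh, sh_sh, hs]
    rw [f1, f2]
    rcases sdR_edge hp with ⟨g1, g2⟩ | ⟨g1, g2⟩
    · apply hR
      · rw [sh_sh']; exact g1
      · unfold SR; rw [sh_sh', g2]
    · rw [segment_symm]
      apply hR
      · rw [sh_sh']; exact g1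
      · unfold SR; rw [sh_sh', g2]
  · by_cases h2 : p.1 ≤ -2
    · left
      have hs : sdk k p = opp (sdR (rc p)) := by
        unfold sdk; rw [if_neg h1, if_pos h2]
      have hp : 0 ≤ (rc p).1 := by change 0 ≤ -2 - p.1; omega
      have f1 : e1 p (sdk k p) = rv (e1 (rc p) (sdR (rc p))) := by
        rw [← e1_rc, rc_rc, hs]
      have f2 : e2 p (sdk k p) = rv (e2 (rc p) (sdR (rc p))) := by
        rw [← e2_rc, rc_rc, hs]
      rw [f1, f2]
      rcases sdR_edge hp with ⟨g1, g2⟩ | ⟨g1, g2⟩
      · apply hL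
        · rw [rv_rv]; exact g1
        · unfold SL; rw [rv_rv, g2]
      · rw [segment_symm]
        apply hL
        · rw [rv_rv]; exact g1
        · unfold SL; rw [rv_rv, g2]
    · obtain ⟨x, y⟩ := p
      dsimp only at h1 h2
      rcases Int.emod_two_eq_zero_or_one y with h | h
      · have hs : sdk k (x, y) = Sd.R := by
          unfold sdk; rw [if_neg h1, if_neg h2, if_pos h]
        rw [hs]
        change segment ℝ (pt (x + 1, y)) (pt (x + 1, y + 1)) ⊆ leftArm ∨
          segment ℝ (pt (x + 1, y)) (pt (x + 1, y + 1)) ⊆ rightArm k ∨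
          ∃ j : ℤ, 0 ≤ j ∧ j < k ∧ segment ℝ (pt (x + 1, y)) (pt (x + 1, y + 1)) ⊆ line j
        by_cases hx : x + 1 = k
        · right; left
          subst hx
          have a1 : sh (-(x + 1)) (x + 1, y) = (0, y) := by
            apply Prod.ext <;> simp [sh]
          have a2 : sh (-(x + 1)) (x + 1, y + 1) = (0, y + 1) := by
            apply Prod.ext <;> simp [sh]
          rcases Z_axis h with g | g
          · apply hR
            · rw [a1]; exact le_refl (0 : ℤ)
            · unfold SR; rw [a1, g]; apply Prod.ext <;> simp [sh]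
          · rw [segment_symm]
            apply hR
            · rw [a2]; exact le_refl (0 : ℤ)
            · unfold SR; rw [a2, g]; apply Prod.ext <;> simp [sh]
        · right; right
          exact ⟨x + 1, by omega, by omega, hV _ _⟩
      · have hs : sdk k (x, y) = Sd.L := by
          unfold sdk; rw [if_neg h1, if_neg h2, if_neg (by dsimp only; omega)]
        rw [hs]
        change segment ℝ (pt (x, y + 1)) (pt (x, y)) ⊆ leftArm ∨
          segment ℝ (pt (x, y + 1)) (pt (x, y)) ⊆ rightArm k ∨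
          ∃ j : ℤ, 0 ≤ j ∧ j < k ∧ segment ℝ (pt (x, y + 1)) (pt (x, y)) ⊆ line j
        by_cases hx : x = -1
        · left
          subst hx
          have a1 : rv (-1, y + 1) = (0, -y - 1) := by
            apply Prod.ext <;> simp [rv]
            ring
          have a2 : rv (-1, y) = (0, (-y - 1) + 1) := by
            apply Prod.ext <;> simp [rv]
          rcases Z_axis (Y := -y - 1) (by omega) with g | g
          · apply hL
            · rw [a1]; exact le_refl (0 : ℤ)
            · unfold SL; rw [a1, g]; apply Prod.ext <;> simp [rv]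
          · rw [segment_symm]
            apply hL
            · rw [a2]; exact le_refl (0 : ℤ)
            · unfold SL; rw [a2, g]; apply Prod.ext <;> simp [rv]
              ring
        · right; right
          rw [segment_symm]
          exact ⟨x, by omega, by omega, hV _ _⟩

theorem many_arms (k : ℕ) : IsArmed (k + 2) {bottom} (fun p => place p (sdk k p)) := by
  refine ⟨fun i => if i.val = 0 then leftArm else if i.val = 1 then rightArm k else line ((i.val : ℤ) - 2),
    ?_, ?_, ?_⟩
  · intro i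
    dsimp only
    split_ifs with h1 h2
    · exact curve_closed left_ray
    · exact curve_closed (right_ray k)
    · exact ⟨line_curve _, isClosed_eq Complex.continuous_re continuous_const⟩
  · intro i j hij
    have hij' : i.val ≠ j.val := fun h => hij (Fin.ext h)
    have hi := i.isLt
    have hj := j.isLt
    rw [disjoint_left]
    intro z hz hz'
    dsimp only at hz hz'
    have hk : (0 : ℝ) ≤ k := Nat.cast_nonneg k
    split_ifs at hz with h1 h2
    · have a1 := left_re hz
      split_ifs at hz' with h3 h4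
      · omega
      · have a2 := right_re hz'
        push_cast at a2
        linarith
      · change z.re = (((j.val : ℤ) - 2 : ℤ) : ℝ) at hz'
        have : (0 : ℝ) ≤ (((j.val : ℤ) - 2 : ℤ) : ℝ) := by exact_mod_cast (by omega : (0 : ℤ) ≤ (j.val : ℤ) - 2)
        linarith
    · have a1 := right_re hz
      split_ifs at hz' with h3 h4
      · have a2 := left_re hz'
        push_cast at a1
        linarith
      · omega
      · change z.re = (((j.val : ℤ) - 2 : ℤ) : ℝ) at hz'
        have : (((j.val : ℤ) - 2 : ℤ) : ℝ) < ((k : ℤ) : ℝ) := by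
          exact_mod_cast (by omega : (j.val : ℤ) - 2 < (k : ℤ))
        linarith
    · change z.re = (((i.val : ℤ) - 2 : ℤ) : ℝ) at hz
      split_ifs at hz' with h3 h4
      · have a2 := left_re hz'
        have : (0 : ℝ) ≤ (((i.val : ℤ) - 2 : ℤ) : ℝ) := by exact_mod_cast (by omega : (0 : ℤ) ≤ (i.val : ℤ) - 2)
        linarith
      · have a2 := right_re hz'
        have : (((i.val : ℤ) - 2 : ℤ) : ℝ) < ((k : ℤ) : ℝ) := by
          exact_mod_cast (by omega : (i.val : ℤ) - 2 < (k : ℤ))
        linarith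
      · change z.re = (((j.val : ℤ) - 2 : ℤ) : ℝ) at hz'
        rw [hz] at hz'
        have : (i.val : ℤ) - 2 = (j.val : ℤ) - 2 := by exact_mod_cast hz'
        omega
  · refine (union_marks _).trans ?_
    apply Subset.antisymm
    · apply iUnion_subset
      intro p
      rcases side_sub (k := k) p with h | h | ⟨j, h0, h1, h⟩
      · exact h.trans (subset_iUnion_of_subset (⟨0, by omega⟩ : Fin (k + 2)) (by simp))
      · exact h.trans (subset_iUnion_of_subset (⟨1, by omega⟩ : Fin (k + 2)) (by simp))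
      · refine h.trans (subset_iUnion_of_subset (⟨j.toNat + 2, by omega⟩ : Fin (k + 2)) ?_)
        dsimp only
        rw [if_neg (by omega), if_neg (by omega)]
        have : ((j.toNat + 2 : ℕ) : ℤ) - 2 = j := by omega
        rw [this]
    · apply iUnion_subset
      intro i
      split_ifs with h1 h2
      · apply iUnion₂_subset
        intro p hp
        exact mk_sub (mk_left (by omega) hp)
      · apply iUnion₂_subset
        intro p hp
        exact mk_sub (mk_right (by omega) hp)
      · rw [line_eq]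
        apply iUnion_subset
        intro y
        exact mk_sub (mk_line (by omega) (by have := i.isLt; omega) y)

/-- For every positive integer `n` the square tiling admits a marking that makes it an `n`-armed spiral. -/
theorem result : ∀ n : ℕ, 0 < n → ∃ (M : Set (Set ℂ)) (σ : ℤ × ℤ → (ℂ ≃ᵢ ℂ)),
    IsMarking M ∧ IsPlacement σ ∧ IsArmed n M σ := by
  intro n hn
  by_cases h1 : n = 1
  · subst h1
    exact ⟨{bottom}, _, marking_bottom, fun p => place_square p _, one_arm⟩
  · obtain ⟨k, rfl⟩ : ∃ k, n = k + 2 := ⟨n - 2, by omega⟩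
    exact ⟨{bottom}, _, marking_bottom, fun p => place_square p _, many_arms k⟩

end Pool.Agent.Results.MP_ca213f_co.AllArms
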